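import Pool.Agent.Lib.MP_67d80e_pr_g3.Ct2.D

/-!
Certificate in dimension 2: checks, part 1.
-/

set_option autoImplicit false

namespace Pool.Agent.Lib.MP_67d80e_pr_g3.Ct2

theorem cs1 : D.cS 1 = true := by decide +kernel

theorem cc1 : D.cC 1 = true := by decide +kernel


end Pool.Agent.Lib.MP_67d80e_pr_g3.Ct2
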