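import Pool.Agent.Lib.MP_67d80e_pr_g3.Ct2.D

/-!
Certificate in dimension 2: checks, part 11.
-/

set_option autoImplicit false

namespace Pool.Agent.Lib.MP_67d80e_pr_g3.Ct2

theorem cb5 : D.cB 5 = true := by decide +kernel

theorem cd5_0 : fa 8 28 (fun i => D.cDi 5 i) = true := by decide +kernel

theorem cs6 : D.cS 6 = true := by decide +kernel

theorem cc6 : D.cC 6 = true := by decide +kernel

theorem cn6 : D.cN 6 = true := by decide +kernel


end Pool.Agent.Lib.MP_67d80e_pr_g3.Ct2
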