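import Pool.Agent.Lib.MP_67d80e_pr_g3.Ct2.D

/-!
Certificate in dimension 2: checks, part 12.
-/

set_option autoImplicit false

namespace Pool.Agent.Lib.MP_67d80e_pr_g3.Ct2

theorem ce6 : D.cE 6 = true := by decide +kernel

theorem cb6 : D.cB 6 = true := by decide +kernel

theorem cd6_0 : fa 10 28 (fun i => D.cDi 6 i) = true := by decide +kernel

theorem cs7 : D.cS 7 = true := by decide +kernel

theorem cc7 : D.cC 7 = true := by decide +kernel

theorem cn7 : D.cN 7 = true := by decide +kernel

theorem ce7 : D.cE 7 = true := by decide +kernel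

theorem cb7 : D.cB 7 = true := by decide +kernel


end Pool.Agent.Lib.MP_67d80e_pr_g3.Ct2
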