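import Pool.Agent.Lib.MP_67d80e_pr_g3.Ct2.D

/-!
Certificate in dimension 2: checks, part 14.
-/

set_option autoImplicit false

namespace Pool.Agent.Lib.MP_67d80e_pr_g3.Ct2

theorem cb9 : D.cB 9 = true := by decide +kernel

theorem cd9_0 : fa 14 28 (fun i => D.cDi 9 i) = true := by decide +kernel

theorem cs10 : D.cS 10 = true := by decide +kernel

theorem cc10 : D.cC 10 = true := by decide +kernel

theorem cn10 : D.cN 10 = true := by decide +kernel

theorem ce10 : D.cE 10 = true := by decide +kernel

theorem cb10 : D.cB 10 = true := by decide +kernel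

theorem cd10_0 : fa 15 28 (fun i => D.cDi 10 i) = true := by decide +kernel

theorem cs11 : D.cS 11 = true := by decide +kernel

theorem cc11 : D.cC 11 = true := by decide +kernel

theorem cn11 : D.cN 11 = true := by decide +kernel

theorem ce11 : D.cE 11 = true := by decide +kernel

theorem cb11 : D.cB 11 = true := by decide +kernel

theorem cd11_0 : fa 16 28 (fun i => D.cDi 11 i) = true := by decide +kernel

theorem cs12 : D.cS 12 = true := by decide +kernel

theorem cc12 : D.cC 12 = true := by decide +kernel


end Pool.Agent.Lib.MP_67d80e_pr_g3.Ct2
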