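import Pool.Agent.Lib.MP_67d80e_pr_g3.Ct2.D

/-!
Certificate in dimension 2: checks, part 15.
-/

set_option autoImplicit false

namespace Pool.Agent.Lib.MP_67d80e_pr_g3.Ct2

theorem cn12 : D.cN 12 = true := by decide +kernel

theorem ce12 : D.cE 12 = true := by decide +kernel

theorem cb12 : D.cB 12 = true := by decide +kernel

theorem cd12_0 : fa 17 28 (fun i => D.cDi 12 i) = true := by decide +kernel

theorem cs13 : D.cS 13 = true := by decide +kernel

theorem cc13 : D.cC 13 = true := by decide +kernel

theorem cn13 : D.cN 13 = true := by decide +kernel

theorem ce13 : D.cE 13 = true := by decide +kernel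

theorem cb13 : D.cB 13 = true := by decide +kernel

theorem cd13_0 : fa 18 28 (fun i => D.cDi 13 i) = true := by decide +kernel

theorem cs14 : D.cS 14 = true := by decide +kernel

theorem cc14 : D.cC 14 = true := by decide +kernel

theorem cn14 : D.cN 14 = true := by decide +kernel

theorem ce14 : D.cE 14 = true := by decide +kernel

theorem cb14 : D.cB 14 = true := by decide +kernel

theorem cd14_0 : fa 19 28 (fun i => D.cDi 14 i) = true := by decide +kernel

theorem cs15 : D.cS 15 = true := by decide +kernel

theorem cc15 : D.cC 15 = true := by decide +kernel

theorem cn15 : D.cN 15 = true := by decide +kernel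

theorem ce15 : D.cE 15 = true := by decide +kernel

theorem cb15 : D.cB 15 = true := by decide +kernel

theorem cd15_0 : fa 19 28 (fun i => D.cDi 15 i) = true := by decide +kernel

theorem cs16 : D.cS 16 = true := by decide +kernel

theorem cc16 : D.cC 16 = true := by decide +kernel

theorem cn16 : D.cN 16 = true := by decide +kernel

theorem ce16 : D.cE 16 = true := by decide +kernel

theorem cb16 : D.cB 16 = true := by decide +kernel

theorem cd16_0 : fa 20 28 (fun i => D.cDi 16 i) = true := by decide +kernel

theorem cs17 : D.cS 17 = true := by decide +kernel

theorem cc17 : D.cC 17 = true := by decide +kernel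

theorem cn17 : D.cN 17 = true := by decide +kernel

theorem ce17 : D.cE 17 = true := by decide +kernel

theorem cb17 : D.cB 17 = true := by decide +kernel

theorem cd17_0 : fa 20 28 (fun i => D.cDi 17 i) = true := by decide +kernel

theorem cs18 : D.cS 18 = true := by decide +kernel

theorem cc18 : D.cC 18 = true := by decide +kernel

theorem ce18 : D.cE 18 = true := by decide +kernel

theorem cb18 : D.cB 18 = true := by decide +kernel


end Pool.Agent.Lib.MP_67d80e_pr_g3.Ct2
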