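import Pool.Agent.Lib.MP_67d80e_pr_g3.Ct2.D

/-!
Certificate in dimension 2: checks, part 16.
-/

set_option autoImplicit false

namespace Pool.Agent.Lib.MP_67d80e_pr_g3.Ct2

theorem cd18_0 : fa 20 28 (fun i => D.cDi 18 i) = true := by decide +kernel


end Pool.Agent.Lib.MP_67d80e_pr_g3.Ct2
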