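import Pool.Agent.Lib.MP_67d80e_pr_g3.Ct2.D

/-!
Certificate in dimension 2: checks, part 9.
-/

set_option autoImplicit false

namespace Pool.Agent.Lib.MP_67d80e_pr_g3.Ct2

theorem cs4 : D.cS 4 = true := by decide +kernel

theorem cc4 : D.cC 4 = true := by decide +kernel

theorem cn4 : D.cN 4 = true := by decide +kernel

theorem ce4 : D.cE 4 = true := by decide +kernel

theorem cb4 : D.cB 4 = true := by decide +kernel


end Pool.Agent.Lib.MP_67d80e_pr_g3.Ct2
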